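import Pool.Agent.Helper54.SR.Defs
import Pool.Agent.Helper54.PW.Main2

/-!
# SR-L8: only finitely many points of the line carry ramification
-/

set_option autoImplicit false
set_option linter.unusedVariables false
set_option linter.unusedSectionVars false
open scoped Pointwise
open Polynomial Pool.Agent.Helper54.PW

namespace Pool.Agent.Helper54.SR

private theorem fr_mul {L : Type} [Field L] (A : ValuationSubring L) {x y : L}
    (hx : x ∈ A.nonunits) (hy : y ∈ A) : x * y ∈ A.nonunits := by
  rw [ValuationSubring.mem_nonunits_iff] at hx ⊢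
  rw [map_mul]
  exact mul_lt_one_of_lt_of_le hx ((A.valuation_le_one_iff _).2 hy)

private theorem fr_mem {L : Type} [Field L] (A : ValuationSubring L) {x : L}
    (hx : x ∈ A.nonunits) : x ∈ A := by
  rw [ValuationSubring.mem_nonunits_iff] at hx
  exact (A.valuation_le_one_iff _).1 hx.le

/-- SR-L8 -/
theorem finite_ramified (k L : Type) [Field k] [IsAlgClosed k] [Field L]
    [Algebra (RatFunc k) L] [FiniteDimensional (RatFunc k) L] [IsGalois (RatFunc k) L] :
    {c : k | ∃ A : ValuationSubring L, IsPl k A ∧ Over k A c ∧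
      ∃ σ : L ≃ₐ[RatFunc k] L, σ • A = A ∧ σ ≠ 1}.Finite := by
  classical
  let _ : Algebra k L := ((algebraMap (RatFunc k) L).comp (algebraMap k (RatFunc k))).toAlgebra
  have : IsScalarTower k (RatFunc k) L := IsScalarTower.of_algebraMap_eq fun _ => rfl
  let _ : Algebra k[X] L := (pk k L).toAlgebra
  have : IsScalarTower k[X] (RatFunc k) L := IsScalarTower.of_algebraMap_eq fun _ => rfl
  have hFF : FF k L := ff_of_algebraic k L
  obtain ⟨y, hy, hyσ⟩ : ∃ y : L, IsIntegral k[X] y ∧
      ∀ σ : L ≃ₐ[RatFunc k] L, σ ≠ 1 → σ y ≠ y := by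
    obtain ⟨α, hα⟩ := Field.exists_primitive_element (RatFunc k) L
    obtain ⟨m, hm⟩ := IsIntegral.exists_multiple_integral_of_isLocalization
      (nonZeroDivisors k[X]) (Rₘ := RatFunc k) α (Algebra.IsIntegral.isIntegral α)
    refine ⟨(m : k[X]) • α, hm, fun σ hσ h => hσ ?_⟩
    have hm0 : (m : k[X]) ≠ 0 := nonZeroDivisors.coe_ne_zero m
    have h1 : σ α = α := by
      rw [Algebra.smul_def, map_mul, IsScalarTower.algebraMap_apply k[X] (RatFunc k) L,
        AlgEquiv.commutes] at h
      refine mul_left_cancel₀ ?_ h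
      rw [Ne, map_eq_zero, map_eq_zero_iff _ (IsFractionRing.injective k[X] (RatFunc k))]
      exact hm0
    have hα' : Algebra.adjoin (RatFunc k) {α} = ⊤ := by
      rw [← IntermediateField.adjoin_simple_toSubalgebra_of_isAlgebraic
        (Algebra.IsAlgebraic.isAlgebraic α), hα, IntermediateField.top_toSubalgebra]
    have h2 : (σ : L →ₐ[RatFunc k] L) = AlgHom.id (RatFunc k) L := by
      refine AlgHom.ext_of_adjoin_eq_top hα' ?_
      intro x hx
      rw [Set.mem_singleton_iff.1 hx]
      exact h1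
    ext x
    exact DFunLike.congr_fun h2 x
  set D : L := ∏ σ ∈ (Finset.univ : Finset (L ≃ₐ[RatFunc k] L)).erase 1, (σ y - y) with hD
  have hσint : ∀ σ : L ≃ₐ[RatFunc k] L, ∀ z : L, IsIntegral k[X] z → IsIntegral k[X] (σ z) := by
    intro σ z hz
    exact hz.map (σ.toAlgHom.restrictScalars k[X])
  have hDint : IsIntegral k[X] D :=
    IsIntegral.prod _ fun σ _ => (hσint σ y hy).sub hy
  have hD0 : D ≠ 0 := by
    rw [hD, Finset.prod_ne_zero_iff]
    intro σ hσ
    exact sub_ne_zero.2 (hyσ σ (Finset.ne_of_mem_erase hσ))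
  obtain ⟨f, hf⟩ : ∃ f : k[X], algebraMap k[X] (RatFunc k) f = Algebra.norm (RatFunc k) D :=
    (IsIntegrallyClosed.isIntegral_iff (R := k[X]) (K := RatFunc k)).1
      (Algebra.isIntegral_norm (RatFunc k) hDint)
  have hf0 : f ≠ 0 := by
    rintro rfl
    rw [map_zero] at hf
    exact hD0 (Algebra.norm_eq_zero_iff.1 hf.symm)
  have hfD : pk k L f = ∏ τ : L ≃ₐ[RatFunc k] L, τ D := by
    rw [← Algebra.norm_eq_prod_automorphisms, ← hf]
    rfl
  refine Set.Finite.subset f.roots.toFinset.finite_toSet ?_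
  rintro c ⟨A, hA, hc, σ, hσA, hσ1⟩
  have hAk : ∀ c : k, algebraMap k L c ∈ A := hA.2
  have hX : tX k L ∈ A := by
    have h1 := A.add_mem _ _ (fr_mem A hc) (hA.2 c)
    rwa [sub_add_cancel] at h1
  have hint : ∀ z : L, IsIntegral k[X] z → z ∈ A := fun z hz =>
    mem_of_integral_pk A hAk hX z hz
  have hDn : D ∈ A.nonunits := by
    have h1 : σ ∈ (Finset.univ : Finset (L ≃ₐ[RatFunc k] L)).erase 1 :=
      Finset.mem_erase.2 ⟨hσ1, Finset.mem_univ _⟩
    rw [hD, ← Finset.mul_prod_erase _ _ h1]
    refine fr_mul A (stab_sub_mem_nonunits hFF A hA σ hσA y (hint y hy)) ?_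
    exact prod_mem fun τ _ => hint _ ((hσint τ y hy).sub hy)
  have hfn : pk k L f ∈ A.nonunits := by
    rw [hfD, ← Finset.mul_prod_erase _ _ (Finset.mem_univ (1 : L ≃ₐ[RatFunc k] L))]
    exact fr_mul A hDn (prod_mem fun τ _ => hint _ (hσint τ D hDint))
  have hev : algebraMap k L (f.eval c) ∈ A.nonunits := by
    obtain ⟨g, hg⟩ := Polynomial.X_sub_C_dvd_sub_C_eval (a := c) (p := f)
    have h1 : algebraMap k L (f.eval c) = pk k L f - (tX k L - co k L c) * pk k L g := by
      have h2 : C (f.eval c) = f - (X - C c) * g := by rw [← hg]; ring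
      have h3 := congrArg (pk k L) h2
      rw [map_sub, map_mul, map_sub] at h3
      have h4 : ∀ a : k, pk k L (C a) = algebraMap k L a := fun a => by
        simp only [pk, RingHom.comp_apply]
        rw [IsScalarTower.algebraMap_apply k (RatFunc k) L]
        congr 1
      have h5 : pk k L X = tX k L := by simp [pk, tX]
      rw [h4, h4, h5] at h3
      exact h3
    rw [h1]
    refine sub_mem hfn (fr_mul A hc (hint _ ?_))
    exact isIntegral_algebraMap
  rw [Finset.mem_coe, Multiset.mem_toFinset, Polynomial.mem_roots hf0, Polynomial.IsRoot]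
  by_contra hne
  have h1 := Places1.val_const A hAk hne
  rw [ValuationSubring.mem_nonunits_iff, h1] at hev
  exact lt_irrefl _ hev

end Pool.Agent.Helper54.SR
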